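import Pool.Agent.H56.KAF.Defs
import Pool.Agent.H7.KSAT.WalkFin

/-!
# Lemma J: a steep turning of the frame fills the rows

Two steps of the walk along crossing lines. The line `l₁` meets the line `l₀` at the unknown time
`t₁`, in a subwindow where the common slope is `f`, and the line `l₂` meets `l₁` at the unknown
time `t₂`, in a subwindow where the slope is `R`, which may depend on `t₁` in an arbitrary way. If
`R` and `f` differ, the end point is spread over two dimensions.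
-/

set_option autoImplicit false

namespace Pool.LJ

open Finset Real
open Pool.Agent.H49.Ent Pool.Agent.H32.Dense Pool.STK Pool.KAF

open Classical in
/-- Row LJA. Entropy from the collision energy of a reference measure, on an event `G`.

Proof. (1) `H P x ≥ Pr P G * H (P | G) x`. (2) With `u` the image of `U` restricted to `G` and `P'`
the image of `P | G`: `H P' = - KL(P', u) - ∑ P' log u ≥ - 2 KL(P', u) - log ∑ u ^ 2`
(Donsker-Varadhan with the function `log u`: `∑ P' log u ≤ KL(P', u) + log ∑ u * u`, by the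
log-sum inequality), and `KL(P', u) ≤ KL(P | G, U)` (log-sum inequality again).
(3) `Pr P G * KL(P | G, U) ≤ ∑ P log (P / U) + 1 / e + 1 / e`. -/
def LJAStmt : Prop :=
  ∀ (A B : Type) [Fintype A] (P U : A → ℝ) (x : A → B) (G : Set A) (E : ℝ), IsLaw P →
    (∀ a, 0 ≤ U a) → ∑ a, U a ≤ 1 → (∀ a, 0 < P a → 0 < U a) → 0 < E →
    (∑ a, ∑ a', if a ∈ G ∧ a' ∈ G ∧ x a = x a' then U a * U a' else 0) ≤ E →
    Pr P G * Real.log (1 / E) - 2 * ∑ a, P a * Real.log (P a / U a) - 3 ≤ H P x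

/-- Row LJB. Counting pairs of second times for given first times and slopes.

Proof. `t₁ - t₂ = - κ d1 / d2 + O(1 / δ)`, so `t₁ (a - a') = a' κ d1 / d2 + O(1 / δ)`, where
`|a' κ d1 / d2| ≥ α δ |κ| / 3`. If `|κ| ≥ κ₀ = C / (α δ ^ 2)` this gives
`|a - a'| ≥ α δ |κ| / (6 M)`, so `t₁` lies in an interval of length `≤ C M / (α δ ^ 2 |κ|)`, and
then `t₂` in an interval of length `≤ C / δ`. If `|κ| < κ₀`: at most `2 M + 1` values of `t₁`. -/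
def LJBStmt : Prop :=
  ∃ C : ℝ, 1 ≤ C ∧ ∀ (M : ℕ) (S : Finset ℤ) (a a' d1 d2 α δ κ : ℝ), 1 ≤ M →
    (∀ t ∈ S, |(t : ℝ)| ≤ M) → |κ| ≤ 2 * M → 0 < α → α ≤ 1 → 0 < δ → δ ≤ 1 → α ≤ |a| →
    α ≤ |a'| → |a| ≤ 6 → |a'| ≤ 6 → δ ≤ |d1| → δ ≤ |d2| → |d1| ≤ 3 → |d2| ≤ 3 →
    (((S ×ˢ S).filter fun t : ℤ × ℤ => |((t.1 : ℝ) - t.2) * d2 + κ * d1| ≤ 64 ∧
      |(t.1 : ℝ) * d2 * a - t.2 * d2 * a'| ≤ 256).card : ℝ) ≤
        C * M / (α * δ ^ 3 * max |κ| 1)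

/-- Row LJC. Two steps of the walk: conditional form.

Proof. For every value of `c` apply LJA with `U` = (uniform law on `[A1, A1 + N)` for `T1`) times
(the conditional law of `R` given `T1`) times (uniform law for `T2`); `KL(P, U)` is
`(log N - H T1) + (log N - H (T2 | T1, R))`. Two samples in `G` with the same `(x1, x2)`: subtract
`f` times the first relation from the second one and use LJB with `a = R - f`, `κ = T1 - T1'`;
then `∑ 1 / max |T1 - T1'| 1 ≤ 3 N (1 + log N)`: `E = C M (1 + log M) / (α δ ^ 3 N ^ 3)`. -/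
def LJCStmt : Prop :=
  ∃ C : ℝ, 1 ≤ C ∧ ∀ (W Γ : Type) [Fintype W] (q : W → ℝ) (c : W → Γ) (T1 T2 x1 x2 : W → ℤ)
    (R : W → ℝ) (f d1 d2 y0 n0 : Γ → ℝ) (A1 A2 : Γ → ℤ) (G : Set W) (M N : ℕ) (α δ : ℝ),
    IsLaw q → 1 ≤ N → N ≤ M → 0 < α → α ≤ 1 → 0 < δ → δ ≤ 1 →
    (∀ w, 0 < q w → A1 (c w) ≤ T1 w ∧ T1 w < A1 (c w) + N ∧ A2 (c w) ≤ T2 w ∧
      T2 w < A2 (c w) + N ∧ -(M : ℤ) ≤ A2 (c w) ∧ A2 (c w) + N ≤ M + 1) →
    (∀ w, 0 < q w → |f (c w)| ≤ 3 ∧ |d1 (c w)| ≤ 3 ∧ |d2 (c w)| ≤ 3 ∧ |R w| ≤ 3) →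
    (∀ w, 0 < q w → |(x1 w : ℝ) - (y0 (c w) + T1 w * d1 (c w) + T2 w * d2 (c w))| ≤ 32 ∧
      |(x2 w : ℝ) - (n0 (c w) + T1 w * d1 (c w) * f (c w) + T2 w * d2 (c w) * R w)| ≤ 32) →
    (∀ w ∈ G, 0 < q w → α ≤ |R w - f (c w)| ∧ δ ≤ |d1 (c w)| ∧ δ ≤ |d2 (c w)|) →
    Pr q G * (3 * Real.log N - Real.log M - Real.log (C * (1 + Real.log M) / (α * δ ^ 3))) -
      2 * ((Real.log N - CH q T1 c) + (Real.log N - CH q T2 (fun w => (T1 w, R w, c w)))) - 3 ≤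
      CH q (fun w => (x1 w, x2 w)) c

/-- **Row LJD: Lemma J.** `lam` is the line with the window, `b` the label, `P` the fine plank and
the position; `T` the time, `(y, n)` the position, `(om, ve)` the velocity and `F` the slope of the
fine plank, all with `K` digits. The slope is constant along a line on subwindows of `2 ^ (K - i)`
times, and mates (same `b`, `T`, `P`) differ by a multiple of `(2 ^ K, F)`.

Proof. Five incidences `o₁`, `o₁'` = copy of `o₁` given `(b, T, P)`, `o₂` = copy of `o₁'` given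
`lam`, `o₂'` = copy of `o₂` given `(b, T, P)`, `o₃` = copy of `o₂'` given `lam`; all have law `p`.
`c = (lam o₁, om o₁', om o₂', T o₃, subwindows of T o₁ and T o₂)`, `G` the event
`|F o₂ - F o₁| ≥ α 2 ^ K`, `|om o₁' - om o₁| ≥ δ 2 ^ K`, `|om o₂' - om o₂| ≥ δ 2 ^ K`. LJC with
`T1 = T o₃ - T o₁`, `T2 = T o₃ - T o₂`, `(x1, x2) = (y, n) o₃`, `f = F o₁ / 2 ^ K`,
`R = F o₂ / 2 ^ K`, `d1 = (om o₁' - om o₁) / 2 ^ K`, `d2 = (om o₂' - om o₂) / 2 ^ K`, `M = 2 ^ K`,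
`N = 2 ^ (K - i)`. Entropies: `H(T o₁ | lam o₁, om o₁', om o₂', T o₃) ≥ K log 2 - 2 e - 2 I` and
`H(T o₂ | o₁, o₁', om o₂', T o₃) ≥ K log 2 - 2 e - I` (chain rule, as for the walk); the
subwindows cost `i log 2` each. Finally `c` determines `(b, T) o₃`. -/
def LJDStmt : Prop :=
  ∃ C : ℝ, 1 ≤ C ∧ ∀ (Ω Λ β γ : Type) [Fintype Ω] (p : Ω → ℝ) (lam : Ω → Λ) (b : Ω → β)
    (P : Ω → γ) (T y n om ve F : Ω → ℤ) (K i : ℕ) (α δ e I β1 β2 : ℝ), IsLaw p → i ≤ K →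
    0 < α → α ≤ 1 → 0 < δ → δ ≤ 1 → β1 + 2 * β2 ≤ 1 →
    (∀ ω, 0 < p ω → 0 ≤ T ω ∧ T ω < 2 ^ K ∧ |om ω| ≤ 2 ^ K ∧ |F ω| ≤ 2 ^ K) →
    (∀ ω ω', 0 < p ω → 0 < p ω' → lam ω = lam ω' → b ω = b ω' ∧ om ω = om ω' ∧ ve ω = ve ω' ∧
      |2 ^ K * ((y ω' : ℝ) - y ω) - ((T ω' : ℝ) - T ω) * om ω| ≤ 4 * 2 ^ K ∧
      |2 ^ K * ((n ω' : ℝ) - n ω) - ((T ω' : ℝ) - T ω) * ve ω| ≤ 4 * 2 ^ K ∧
      (T ω / 2 ^ (K - i) = T ω' / 2 ^ (K - i) → F ω = F ω')) →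
    (∀ ω ω', 0 < p ω → 0 < p ω' → b ω = b ω' → T ω = T ω' → P ω = P ω' →
      y ω = y ω' ∧ n ω = n ω' ∧ F ω = F ω' ∧
      |2 ^ K * ((ve ω' : ℝ) - ve ω) - F ω * ((om ω' : ℝ) - om ω)| ≤ 4 * 2 ^ K) →
    K * Real.log 2 - e ≤ CH p T lam →
    CH p om b - CH p om (fun ω => (b ω, T ω, P ω)) ≤ I →
    Pr (dbl p lam) {w | |(F w.2 : ℝ) - F w.1| < α * 2 ^ K} ≤ β1 →
    Pr (dbl p (fun ω => (b ω, T ω, P ω))) {w | |(om w.2 : ℝ) - om w.1| < δ * 2 ^ K} ≤ β2 →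
    (1 - β1 - 2 * β2) * ((2 * K - 3 * i) * Real.log 2 -
      Real.log (C * (1 + K) / (α * δ ^ 3))) - (8 * e + 6 * I + 2 * i * Real.log 2) - C ≤
      CH p (fun ω => (y ω, n ω)) (fun ω => (b ω, T ω))

end Pool.LJ
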